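import Pool.Agent.Helper35.KL.As.K

/-!
# Splittings into direct and free products
-/

namespace Pool.Agent.Helper35.KL

theorem isPar_free_aux {B₁ B₂ B : Type} (M : CoxeterMatrix B) (j₁ : B₁ → B) (j₂ : B₂ → B)
    (h₁ : Function.Injective j₁) (h₂ : Function.Injective j₂)
    (hcov : ∀ b, (∃ a, b = j₁ a) ∨ ∃ a, b = j₂ a) (hdis : ∀ a b, j₁ a ≠ j₂ b)
    (h : ∀ a b, M (j₁ a) (j₂ b) = 0) :
    IsPar (gmap (M := subM M j₁ h₁) (M' := M) j₁ fun _ _ => rfl) j₁ := by
  let Bi : Bool → Type := fun i => match i with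
    | true => B₁
    | false => B₂
  let Mi : ∀ i, CoxeterMatrix (Bi i) := fun i => match i with
    | true => subM M j₁ h₁
    | false => subM M j₂ h₂
  let k : (Σ i, Bi i) → B := fun x => match x with
    | ⟨true, a⟩ => j₁ a
    | ⟨false, b⟩ => j₂ b
  have hk : Function.Bijective k := by
    constructor
    · rintro ⟨i, a⟩ ⟨i', a'⟩ hh
      cases i <;> cases i'
      · change j₂ a = j₂ a' at hh
        rw [h₂ hh]
      · change j₂ a = j₁ a' at hh
        exact absurd hh.symm (hdis a' a)
      · change j₁ a = j₂ a' at hh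
        exact absurd hh (hdis a a')
      · change j₁ a = j₁ a' at hh
        rw [h₁ hh]
    · intro b
      rcases hcov b with ⟨a, rfl⟩ | ⟨a, rfl⟩
      · exact ⟨⟨true, a⟩, rfl⟩
      · exact ⟨⟨false, a⟩, rfl⟩
  have hM : ∀ a b, M (Equiv.ofBijective k hk a) (Equiv.ofBijective k hk b) = sumM Mi a b := by
    rintro ⟨i, a⟩ ⟨i', a'⟩
    rw [Equiv.ofBijective_apply, Equiv.ofBijective_apply]
    cases i <;> cases i'
    · exact (J_same Mi false a a').symm
    · change M (j₂ a) (j₁ a') = _
      rw [M.symmetric, h]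
      simp [sumM]
    · change M (j₁ a) (j₂ a') = _
      rw [h]
      simp [sumM]
    · exact (J_same Mi true a a').symm
  refine ⟨fun b => gmap_sm _ _ b, fun x => ?_⟩
  have h1 : (gmap (Equiv.ofBijective k hk) hM).comp (emb Mi true) =
      gmap (M := subM M j₁ h₁) j₁ (fun _ _ => rfl) := by
    refine (subM M j₁ h₁).toCoxeterSystem.ext_simple fun b => ?_
    change gmap (Equiv.ofBijective k hk) hM (emb Mi true (sm (Mi true) b)) =
      gmap j₁ (fun _ _ => rfl) (sm (subM M j₁ h₁) b)
    rw [emb_sm, gmap_sm, gmap_sm]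
    rfl
  have h2 : gmap (Equiv.ofBijective k hk) hM (emb Mi true x) =
      gmap (M := subM M j₁ h₁) j₁ (fun _ _ => rfl) x := DFunLike.congr_fun h1 x
  have h3 := len_equiv (giso (Equiv.ofBijective k hk) hM) (Equiv.ofBijective k hk)
    (giso_sm _ hM) (emb Mi true x)
  have h4 : len M (gmap (M := subM M j₁ h₁) j₁ (fun _ _ => rfl) x) =
      len (sumM Mi) (emb Mi true x) := by
    rw [← h2]
    exact h3
  rw [h4]
  exact len_emb (M := Mi) true x

/-- The two ways in which a Coxeter group with the generators split into `J` and its complement is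
a product: direct product (all entries across are `2`), free product (all entries across are
`∞`, which Mathlib writes as `0`). -/
def SplitAt {B : Type} (M : CoxeterMatrix B) (J : Set B) : Prop :=
  (∀ s ∈ J, ∀ t ∉ J, M s t = 2) ∨ ∀ s ∈ J, ∀ t ∉ J, M s t = 0

theorem splitAt_isPar {B : Type} {M : CoxeterMatrix B} {J : Set B} (hJ : SplitAt M J) :
    IsPar (gmap (M := subM M (Subtype.val : J → B) Subtype.val_injective) (M' := M)
      Subtype.val fun _ _ => rfl) (Subtype.val : J → B) ∧
    IsPar (gmap (M := subM M (Subtype.val : ↥(Jᶜ) → B) Subtype.val_injective) (M' := M)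
      Subtype.val fun _ _ => rfl) (Subtype.val : ↥(Jᶜ) → B) := by
  have hcov : ∀ b, (∃ a : J, b = a.val) ∨ ∃ a : ↥(Jᶜ), b = a.val := by
    intro b
    by_cases hb : b ∈ J
    · exact Or.inl ⟨⟨b, hb⟩, rfl⟩
    · exact Or.inr ⟨⟨b, hb⟩, rfl⟩
  have hdis : ∀ (a : J) (b : ↥(Jᶜ)), a.val ≠ b.val := by
    intro a b hab
    exact b.2 (hab ▸ a.2)
  rcases hJ with h | h
  · have hP := isProd_split M (Subtype.val : J → B) (Subtype.val : ↥(Jᶜ) → B)
      Subtype.val_injective Subtype.val_injective hcov hdis (fun a b => h _ a.2 _ b.2)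
    exact ⟨hP.p₁, hP.p₂⟩
  · refine ⟨isPar_free_aux M _ (Subtype.val : ↥(Jᶜ) → B) Subtype.val_injective
      Subtype.val_injective hcov hdis (fun a b => h _ a.2 _ b.2),
      isPar_free_aux M _ (Subtype.val : J → B) Subtype.val_injective
      Subtype.val_injective (fun b => (hcov b).symm) (fun a b => (hdis b a).symm) ?_⟩
    intro a b
    rw [M.symmetric]
    exact h _ b.2 _ a.2

/-- P1-P15 for a group with a splitting of the generators. -/
theorem lusztig_splitAt {B : Type} (M : CoxeterMatrix B) (J : Set B) (hJ : SplitAt M J)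
    (L : M.Group → ℤ) (hL : IsWeight M L) :
    Lusztig M L ↔ Lusztig (subM M (Subtype.val : J → B) Subtype.val_injective) (resL L J) ∧
      Lusztig (subM M (Subtype.val : ↥(Jᶜ) → B) Subtype.val_injective) (resL L Jᶜ) := by
  have hp := splitAt_isPar hJ
  have hcov : ∀ b, (∃ a : J, b = a.val) ∨ ∃ a : ↥(Jᶜ), b = a.val := by
    intro b
    by_cases hb : b ∈ J
    · exact Or.inl ⟨⟨b, hb⟩, rfl⟩
    · exact Or.inr ⟨⟨b, hb⟩, rfl⟩
  have hdis : ∀ (a : J) (b : ↥(Jᶜ)), a.val ≠ b.val := by
    intro a b hab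
    exact b.2 (hab ▸ a.2)
  constructor
  · intro h
    exact ⟨lusztig_par hp.1 hL h, lusztig_par hp.2 hL h⟩
  · rintro ⟨h1, h2⟩
    rcases hJ with h | h
    · exact lusztig_prod M _ _ Subtype.val_injective Subtype.val_injective hcov hdis
        (fun a b => h _ a.2 _ b.2) hL (fun _ => h1) (fun _ => h2)
    · exact lusztig_free M _ _ Subtype.val_injective Subtype.val_injective hcov hdis
        (fun a b => h _ a.2 _ b.2) hL (fun _ => h1) (fun _ => h2)

theorem splitAt_weight {B : Type} {M : CoxeterMatrix B} {J : Set B} (hJ : SplitAt M J)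
    {L : M.Group → ℤ} (hL : IsWeight M L) :
    IsWeight (subM M (Subtype.val : J → B) Subtype.val_injective) (resL L J) ∧
      IsWeight (subM M (Subtype.val : ↥(Jᶜ) → B) Subtype.val_injective) (resL L Jᶜ) :=
  ⟨isWeight_par (splitAt_isPar hJ).1 hL, isWeight_par (splitAt_isPar hJ).2 hL⟩

theorem bounded_splitAt {B : Type} (M : CoxeterMatrix B) (J : Set B) (hJ : SplitAt M J)
    (L : M.Group → ℤ) (hL : IsWeight M L) :
    BoundedP1P15 M L ↔
      BoundedP1P15 (subM M (Subtype.val : J → B) Subtype.val_injective) (resL L J) ∧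
      BoundedP1P15 (subM M (Subtype.val : ↥(Jᶜ) → B) Subtype.val_injective) (resL L Jᶜ) := by
  have hw := splitAt_weight hJ hL
  rw [bounded_iff hL, bounded_iff hw.1, bounded_iff hw.2]
  exact lusztig_splitAt M J hJ L hL

end Pool.Agent.Helper35.KL
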