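import Pool.Agent.Helper35.KL.As.J
import Pool.Agent.Helper35.KL.Di.All
import Pool.Agent.Helper35.KL.Fin

/-!
# Groups built from given ones by direct and free products
-/

namespace Pool.Agent.Helper35.KL

/-- The restriction of a function on the group to the group generated by a set of generators. -/
noncomputable def resL {B : Type} {M : CoxeterMatrix B} (L : M.Group → ℤ) (I : Set B) :
    (subM M (Subtype.val : I → B) Subtype.val_injective).Group → ℤ :=
  fun x => L (gmap (Subtype.val : I → B) (fun _ _ => rfl) x)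

/-- The sets of generators obtained from sets with the property `P` by repeatedly taking disjoint
unions of two sets such that all generators of the first commute with all generators of the second
(direct product), or all products of a generator of the first and a generator of the second have
infinite order (free product). -/
inductive Built {B : Type} (M : CoxeterMatrix B) (P : Set B → Prop) : Set B → Prop
  | base (I : Set B) : P I → Built M P I
  | prod (J K : Set B) : Built M P J → Built M P K → Disjoint J K →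
      (∀ s ∈ J, ∀ t ∈ K, M s t = 2) → Built M P (J ∪ K)
  | free (J K : Set B) : Built M P J → Built M P K → Disjoint J K →
      (∀ s ∈ J, ∀ t ∈ K, M s t = 0) → Built M P (J ∪ K)

theorem gmap_comp {B₁ B₂ B₃ : Type} {M₁ : CoxeterMatrix B₁} {M₂ : CoxeterMatrix B₂}
    {M₃ : CoxeterMatrix B₃} (j : B₁ → B₂) (k : B₂ → B₃)
    (hj : ∀ a b, M₂ (j a) (j b) = M₁ a b) (hk : ∀ a b, M₃ (k a) (k b) = M₂ a b)
    (h : ∀ a b, M₃ (k (j a)) (k (j b)) = M₁ a b) (x : M₁.Group) :
    gmap k hk (gmap j hj x) = gmap (fun a => k (j a)) h x := by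
  have h1 : (gmap k hk).comp (gmap j hj) = gmap (fun a => k (j a)) h := by
    refine M₁.toCoxeterSystem.ext_simple fun b => ?_
    change gmap k hk (gmap j hj (sm M₁ b)) = gmap (fun a => k (j a)) h (sm M₁ b)
    rw [gmap_sm, gmap_sm, gmap_sm]
  exact DFunLike.congr_fun h1 x

/-- Direct products, for one weight function. -/
theorem lusztig_prod {B₁ B₂ B : Type} (M : CoxeterMatrix B) (j₁ : B₁ → B) (j₂ : B₂ → B)
    (h₁ : Function.Injective j₁) (h₂ : Function.Injective j₂)
    (hcov : ∀ b, (∃ a, b = j₁ a) ∨ ∃ a, b = j₂ a) (hdis : ∀ a b, j₁ a ≠ j₂ b)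
    (h : ∀ a b, M (j₁ a) (j₂ b) = 2) {L : M.Group → ℤ} (hL : IsWeight M L)
    (hA : IsWeight (subM M j₁ h₁) (fun x => L (gmap j₁ (fun _ _ => rfl) x)) →
      Lusztig (subM M j₁ h₁) fun x => L (gmap j₁ (fun _ _ => rfl) x))
    (hB : IsWeight (subM M j₂ h₂) (fun x => L (gmap j₂ (fun _ _ => rfl) x)) →
      Lusztig (subM M j₂ h₂) fun x => L (gmap j₂ (fun _ _ => rfl) x)) : Lusztig M L := by
  intro H _ _ D
  have hP := isProd_split M j₁ j₂ h₁ h₂ hcov hdis h
  have w₁ := isWeight_par hP.p₁ hL
  have w₂ := isWeight_par hP.p₂ hL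
  have l₁ := hA w₁ _ (Dp hP.p₁ D)
  have l₂ := hB w₂ _ (Dp hP.p₂ D)
  have hc := core_prod hP hL D (l₁.2.core w₁ l₁.1) (l₂.2.core w₂ l₂.1)
  exact ⟨hc.bdd, hc.lus hL⟩

/-- Relabelling, for one weight function. -/
theorem lusztig_of_equiv {B B' : Type} {M : CoxeterMatrix B} {M' : CoxeterMatrix B'} (e : B ≃ B')
    (h : ∀ a b, M' (e a) (e b) = M a b) {L' : M'.Group → ℤ} (hL' : IsWeight M' L')
    (hM : IsWeight M (fun w => L' (gmap e h w)) → Lusztig M fun w => L' (gmap e h w)) :
    Lusztig M' L' := by
  have hφ := giso_sm e h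
  have hL : IsWeight M fun w => L' (giso e h w) := isWeight_iso (giso e h) e hφ hL'
  obtain ⟨H, i1, i2, ⟨D⟩⟩ := exists_KLD M _ hL
  have h1 := hM hL H D
  exact lusztig_of_core (giso e h) e hφ (fun w => rfl) hL' D (h1.2.core hL h1.1)

/-- Free products, for one weight function. -/
theorem lusztig_free {B₁ B₂ B : Type} (M : CoxeterMatrix B) (j₁ : B₁ → B) (j₂ : B₂ → B)
    (h₁ : Function.Injective j₁) (h₂ : Function.Injective j₂)
    (hcov : ∀ b, (∃ a, b = j₁ a) ∨ ∃ a, b = j₂ a) (hdis : ∀ a b, j₁ a ≠ j₂ b)
    (h : ∀ a b, M (j₁ a) (j₂ b) = 0) {L : M.Group → ℤ} (hL : IsWeight M L)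
    (hA : IsWeight (subM M j₁ h₁) (fun x => L (gmap j₁ (fun _ _ => rfl) x)) →
      Lusztig (subM M j₁ h₁) fun x => L (gmap j₁ (fun _ _ => rfl) x))
    (hB : IsWeight (subM M j₂ h₂) (fun x => L (gmap j₂ (fun _ _ => rfl) x)) →
      Lusztig (subM M j₂ h₂) fun x => L (gmap j₂ (fun _ _ => rfl) x)) : Lusztig M L := by
  let Bi : Bool → Type := fun i => match i with
    | true => B₁
    | false => B₂
  let Mi : ∀ i, CoxeterMatrix (Bi i) := fun i => match i with
    | true => subM M j₁ h₁
    | false => subM M j₂ h₂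
  let k : (Σ i, Bi i) → B := fun x => match x with
    | ⟨true, a⟩ => j₁ a
    | ⟨false, b⟩ => j₂ b
  have hk : Function.Bijective k := by
    constructor
    · rintro ⟨i, a⟩ ⟨i', a'⟩ hh
      cases i <;> cases i'
      · change j₂ a = j₂ a' at hh
        rw [h₂ hh]
      · change j₂ a = j₁ a' at hh
        exact absurd hh.symm (hdis a' a)
      · change j₁ a = j₂ a' at hh
        exact absurd hh (hdis a a')
      · change j₁ a = j₁ a' at hh
        rw [h₁ hh]
    · intro b
      rcases hcov b with ⟨a, rfl⟩ | ⟨a, rfl⟩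
      · exact ⟨⟨true, a⟩, rfl⟩
      · exact ⟨⟨false, a⟩, rfl⟩
  have hM : ∀ a b, M (Equiv.ofBijective k hk a) (Equiv.ofBijective k hk b) = sumM Mi a b := by
    rintro ⟨i, a⟩ ⟨i', a'⟩
    rw [Equiv.ofBijective_apply, Equiv.ofBijective_apply]
    cases i <;> cases i'
    · exact (J_same Mi false a a').symm
    · change M (j₂ a) (j₁ a') = _
      rw [M.symmetric, h]
      simp [sumM]
    · change M (j₁ a) (j₂ a') = _
      rw [h]
      simp [sumM]
    · exact (J_same Mi true a a').symm
  refine lusztig_of_equiv (M := sumM Mi) (Equiv.ofBijective k hk) hM hL fun hL' => ?_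
  have e1 : ∀ x, L (gmap (Equiv.ofBijective k hk) hM (emb Mi true x)) =
      L (gmap j₁ (fun _ _ => rfl) x) := by
    intro x
    have h1 : (gmap (Equiv.ofBijective k hk) hM).comp (emb Mi true) =
        gmap (M := subM M j₁ h₁) j₁ (fun _ _ => rfl) := by
      refine (subM M j₁ h₁).toCoxeterSystem.ext_simple fun b => ?_
      change gmap (Equiv.ofBijective k hk) hM (emb Mi true (sm (Mi true) b)) =
        gmap j₁ (fun _ _ => rfl) (sm (subM M j₁ h₁) b)
      rw [emb_sm, gmap_sm, gmap_sm]
      rfl
    exact congrArg L (DFunLike.congr_fun h1 x)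
  have e2 : ∀ x, L (gmap (Equiv.ofBijective k hk) hM (emb Mi false x)) =
      L (gmap j₂ (fun _ _ => rfl) x) := by
    intro x
    have h1 : (gmap (Equiv.ofBijective k hk) hM).comp (emb Mi false) =
        gmap (M := subM M j₂ h₂) j₂ (fun _ _ => rfl) := by
      refine (subM M j₂ h₂).toCoxeterSystem.ext_simple fun b => ?_
      change gmap (Equiv.ofBijective k hk) hM (emb Mi false (sm (Mi false) b)) =
        gmap j₂ (fun _ _ => rfl) (sm (subM M j₂ h₂) b)
      rw [emb_sm, gmap_sm, gmap_sm]
      rfl
    exact congrArg L (DFunLike.congr_fun h1 x)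
  refine lusztig_sum Mi _ hL' fun i => ?_
  cases i
  · have w := isWeight_par (isPar_emb Mi false) hL'
    have e2' : (fun x => L (gmap (Equiv.ofBijective k hk) hM (emb Mi false x))) =
        fun x => L (gmap (M := subM M j₂ h₂) j₂ (fun _ _ => rfl) x) := funext e2
    change Lusztig (subM M j₂ h₂)
      (fun x => L (gmap (Equiv.ofBijective k hk) hM (emb Mi false x)))
    change IsWeight (subM M j₂ h₂)
      (fun x => L (gmap (Equiv.ofBijective k hk) hM (emb Mi false x))) at w
    rw [e2'] at w ⊢
    exact hB w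
  · have w := isWeight_par (isPar_emb Mi true) hL'
    have e1' : (fun x => L (gmap (Equiv.ofBijective k hk) hM (emb Mi true x))) =
        fun x => L (gmap (M := subM M j₁ h₁) j₁ (fun _ _ => rfl) x) := funext e1
    change Lusztig (subM M j₁ h₁)
      (fun x => L (gmap (Equiv.ofBijective k hk) hM (emb Mi true x)))
    change IsWeight (subM M j₁ h₁)
      (fun x => L (gmap (Equiv.ofBijective k hk) hM (emb Mi true x))) at w
    rw [e1'] at w ⊢
    exact hA w

/-- Groups of rank at most two. -/
theorem lusztig_small {B : Type} {M : CoxeterMatrix B} {L : M.Group → ℤ} (I : Set B)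
    (hI : I.encard ≤ 2)
    (hw : IsWeight (subM M (Subtype.val : I → B) Subtype.val_injective) (resL L I)) :
    Lusztig (subM M (Subtype.val : I → B) Subtype.val_injective) (resL L I) := by
  have hfin : Finite I := Set.finite_of_encard_le_coe (k := 2) hI
  refine allL_join allL_dihedral _ ?_ _ hw
  intro J hJ
  exfalso
  have h1 : J.encard ≤ 2 := by
    refine le_trans ?_ hI
    rw [← Subtype.val_injective.encard_image J]
    refine Set.encard_le_encard ?_
    rintro _ ⟨x, -, rfl⟩
    exact x.2
  have h2 := hJ.trans h1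
  exact absurd h2 (by decide)

theorem built_step {B : Type} {M : CoxeterMatrix B} {L : M.Group → ℤ} {I J : Set B} (h : J ⊆ I)
    (hJ : IsWeight (subM M (Subtype.val : J → B) Subtype.val_injective) (resL L J) →
      Lusztig (subM M (Subtype.val : J → B) Subtype.val_injective) (resL L J)) :
    IsWeight (subM (subM M (Subtype.val : I → B) Subtype.val_injective) (Set.inclusion h)
        (Set.inclusion_injective h))
      (fun x => resL L I (gmap (Set.inclusion h) (fun _ _ => rfl) x)) →
    Lusztig (subM (subM M (Subtype.val : I → B) Subtype.val_injective) (Set.inclusion h)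
        (Set.inclusion_injective h))
      (fun x => resL L I (gmap (Set.inclusion h) (fun _ _ => rfl) x)) := by
  have e : (fun x => resL L I (gmap (M := subM (subM M (Subtype.val : I → B)
      Subtype.val_injective) (Set.inclusion h) (Set.inclusion_injective h))
      (Set.inclusion h) (fun _ _ => rfl) x)) = resL L J := by
    funext x
    exact congrArg L (gmap_comp (Set.inclusion h) (Subtype.val : I → B) (fun _ _ => rfl)
      (fun _ _ => rfl) (fun _ _ => rfl) x)
  rw [e]
  exact hJ

theorem lusztig_built {B : Type} (M : CoxeterMatrix B) (L : M.Group → ℤ) (I : Set B)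
    (h : Built M (fun I => I.encard ≤ 2 ∨
      Lusztig (subM M (Subtype.val : I → B) Subtype.val_injective) (resL L I)) I) :
    IsWeight (subM M (Subtype.val : I → B) Subtype.val_injective) (resL L I) →
      Lusztig (subM M (Subtype.val : I → B) Subtype.val_injective) (resL L I) := by
  induction h with
  | base I hI =>
    intro hw
    rcases hI with hI | hI
    · exact lusztig_small I hI hw
    · exact hI
  | prod J K _ _ hd hM ihJ ihK =>
    intro hw
    refine lusztig_prod _ (Set.inclusion Set.subset_union_left)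
      (Set.inclusion Set.subset_union_right) (Set.inclusion_injective _)
      (Set.inclusion_injective _) ?_ ?_ ?_ hw (built_step Set.subset_union_left ihJ)
      (built_step Set.subset_union_right ihK)
    · rintro ⟨b, hb⟩
      rcases hb with hb | hb
      · exact Or.inl ⟨⟨b, hb⟩, rfl⟩
      · exact Or.inr ⟨⟨b, hb⟩, rfl⟩
    · rintro ⟨a, ha⟩ ⟨b, hb⟩ hab
      have h1 : a = b := congrArg Subtype.val hab
      exact Set.disjoint_left.1 hd ha (h1 ▸ hb)
    · intro a b
      exact hM _ a.2 _ b.2
  | free J K _ _ hd hM ihJ ihK =>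
    intro hw
    refine lusztig_free _ (Set.inclusion Set.subset_union_left)
      (Set.inclusion Set.subset_union_right) (Set.inclusion_injective _)
      (Set.inclusion_injective _) ?_ ?_ ?_ hw (built_step Set.subset_union_left ihJ)
      (built_step Set.subset_union_right ihK)
    · rintro ⟨b, hb⟩
      rcases hb with hb | hb
      · exact Or.inl ⟨⟨b, hb⟩, rfl⟩
      · exact Or.inr ⟨⟨b, hb⟩, rfl⟩
    · rintro ⟨a, ha⟩ ⟨b, hb⟩ hab
      have h1 : a = b := congrArg Subtype.val hab
      exact Set.disjoint_left.1 hd ha (h1 ▸ hb)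
    · intro a b
      exact hM _ a.2 _ b.2

theorem lusztig_univ {B : Type} (M : CoxeterMatrix B) (L : M.Group → ℤ) (hL : IsWeight M L)
    (h : IsWeight (subM M (Subtype.val : ↥(Set.univ : Set B) → B) Subtype.val_injective)
      (resL L Set.univ) →
      Lusztig (subM M (Subtype.val : ↥(Set.univ : Set B) → B) Subtype.val_injective)
        (resL L Set.univ)) : Lusztig M L := by
  have hM : ∀ a b, M (Equiv.Set.univ B a) (Equiv.Set.univ B b) =
      subM M (Subtype.val : ↥(Set.univ : Set B) → B) Subtype.val_injective a b :=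
    fun _ _ => rfl
  refine lusztig_of_equiv (Equiv.Set.univ B) hM hL ?_
  have e : (fun w => L (gmap (Equiv.Set.univ B) hM w)) = resL L Set.univ := rfl
  rw [e]
  exact h

end Pool.Agent.Helper35.KL
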