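import Pool.Agent.Helper35.KL.Dp.G
import Pool.Agent.Helper35.KL.Dp.C

/-!
# Coxeter groups built from groups of rank at most two by direct and free products
-/

namespace Pool.Agent.Helper35.KL

/-- Every set of at least three generators splits into two nonempty parts such that either every
generator of one part commutes with every generator of the other part, or all products of a
generator of one part and a generator of the other part have infinite order (the value `0`). -/
def Splits {B : Type} (M : CoxeterMatrix B) : Prop :=
  ∀ I : Set B, 3 ≤ I.encard → ∃ J ⊆ I, J.Nonempty ∧ (I \ J).Nonempty ∧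
    ((∀ s ∈ J, ∀ t ∈ I \ J, M s t = 2) ∨ ∀ s ∈ J, ∀ t ∈ I \ J, M s t = 0)

end Pool.Agent.Helper35.KL
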