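import Pool.Agent.Helper35.KL.As.R1

/-!
# The assembly
-/

namespace Pool.Agent.Helper35.KL

/-- P1-P15 are invariant under relabelling.

Proof: let `φ = giso e h` (Cg.lean). Given `L'` on `M'.Group` put `L = L' ∘ φ`, a weight function by
`isWeight_iso`. `exists_KLD M L` gives a `D`, `hM L _ H D` gives `D.Bounded ∧ D.Lus`, hence
`D.Core` by `KLD.Lus.core`, and `lusztig_of_core` finishes. -/
theorem allL_of_equiv {B B' : Type} {M : CoxeterMatrix B} {M' : CoxeterMatrix B'} (e : B ≃ B')
    (h : ∀ a b, M' (e a) (e b) = M a b) (hM : AllL M) : AllL M' := by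
  intro L' hL'
  have hφ := giso_sm e h
  have hL : IsWeight M fun w => L' (giso e h w) := isWeight_iso (giso e h) e hφ hL'
  obtain ⟨H, i1, i2, ⟨D⟩⟩ := exists_KLD M _ hL
  have h1 := hM _ hL H D
  exact lusztig_of_core (giso e h) e hφ (fun w => rfl) hL' D (h1.2.core hL h1.1)

/-- Direct products. Proof: `isProd_split` gives `hP : IsProd ..`; for a weight function `L` and
`D : KLD M L H`, `Dp hP.p₁ D` (Sub.lean) is a Hecke algebra of `M₁` for the weight `L ∘ f₁`, which is
a weight function by `isWeight_par`; so `hA` gives its `Lus` and boundedness, `KLD.Lus.core` its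
`Core`; the same for `M₂`; then `core_prod` gives `D.Core`, and `KLD.Core.lus` the claim. -/
theorem allL_prod {B₁ B₂ B : Type} (M : CoxeterMatrix B) (j₁ : B₁ → B) (j₂ : B₂ → B)
    (h₁ : Function.Injective j₁) (h₂ : Function.Injective j₂)
    (hcov : ∀ b, (∃ a, b = j₁ a) ∨ ∃ a, b = j₂ a) (hdis : ∀ a b, j₁ a ≠ j₂ b)
    (h : ∀ a b, M (j₁ a) (j₂ b) = 2) (hA : AllL (subM M j₁ h₁)) (hB : AllL (subM M j₂ h₂)) :
    AllL M := by
  intro L hL H _ _ D
  have hP := isProd_split M j₁ j₂ h₁ h₂ hcov hdis h
  have w₁ := isWeight_par hP.p₁ hL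
  have w₂ := isWeight_par hP.p₂ hL
  have l₁ := hA _ w₁ _ (Dp hP.p₁ D)
  have l₂ := hB _ w₂ _ (Dp hP.p₂ D)
  have hc := core_prod hP hL D (l₁.2.core w₁ l₁.1) (l₂.2.core w₂ l₂.1)
  exact ⟨hc.bdd, hc.lus hL⟩

theorem J_same {ι : Type} {B : ι → Type} (M : ∀ i, CoxeterMatrix (B i)) (i : ι) (a b : B i) :
    (sumM M) ⟨i, a⟩ ⟨i, b⟩ = M i a b := by
  simp [sumM]

/-- Free products. Proof: put `Bi i = if i then B₁ else B₂` (or `Bool.rec B₂ B₁ i`), with the
matrices `Mi i`, and the bijection `(Σ i : Bool, Bi i) ≃ B` given by `j₁`, `j₂`; it carries `sumM Mi`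
to `M` since the entries across are `0`; use `allL_of_equiv` and `lusztig_sum` (Main.lean) with
`isWeight_par (isPar_emb M i)`. Alternatively use `Equiv.sigmaFiberEquiv` of the map `B → Bool`. -/
theorem allL_free {B₁ B₂ B : Type} (M : CoxeterMatrix B) (j₁ : B₁ → B) (j₂ : B₂ → B)
    (h₁ : Function.Injective j₁) (h₂ : Function.Injective j₂)
    (hcov : ∀ b, (∃ a, b = j₁ a) ∨ ∃ a, b = j₂ a) (hdis : ∀ a b, j₁ a ≠ j₂ b)
    (h : ∀ a b, M (j₁ a) (j₂ b) = 0) (hA : AllL (subM M j₁ h₁)) (hB : AllL (subM M j₂ h₂)) :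
    AllL M := by
  let Bi : Bool → Type := fun i => match i with
    | true => B₁
    | false => B₂
  let Mi : ∀ i, CoxeterMatrix (Bi i) := fun i => match i with
    | true => subM M j₁ h₁
    | false => subM M j₂ h₂
  let k : (Σ i, Bi i) → B := fun x => match x with
    | ⟨true, a⟩ => j₁ a
    | ⟨false, b⟩ => j₂ b
  have hk : Function.Bijective k := by
    constructor
    · rintro ⟨i, a⟩ ⟨i', a'⟩ hh
      cases i <;> cases i'
      · change j₂ a = j₂ a' at hh
        rw [h₂ hh]
      · change j₂ a = j₁ a' at hh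
        exact absurd hh.symm (hdis a' a)
      · change j₁ a = j₂ a' at hh
        exact absurd hh (hdis a a')
      · change j₁ a = j₁ a' at hh
        rw [h₁ hh]
    · intro b
      rcases hcov b with ⟨a, rfl⟩ | ⟨a, rfl⟩
      · exact ⟨⟨true, a⟩, rfl⟩
      · exact ⟨⟨false, a⟩, rfl⟩
  refine allL_of_equiv (M := sumM Mi) (Equiv.ofBijective k hk) ?_ ?_
  · rintro ⟨i, a⟩ ⟨i', a'⟩
    rw [Equiv.ofBijective_apply, Equiv.ofBijective_apply]
    cases i <;> cases i'
    · exact (J_same Mi false a a').symm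
    · change M (j₂ a) (j₁ a') = _
      rw [M.symmetric, h]
      simp [sumM]
    · change M (j₁ a) (j₂ a') = _
      rw [h]
      simp [sumM]
    · exact (J_same Mi true a a').symm
  · intro L hL
    refine lusztig_sum Mi L hL fun i => ?_
    cases i
    · exact hB _ (isWeight_par (isPar_emb Mi false) hL)
    · exact hA _ (isWeight_par (isPar_emb Mi true) hL)

/-- `Splits` is inherited by `subM` (take images of the sets under `j`). -/
theorem Splits.sub {B₁ B : Type} {M : CoxeterMatrix B} (hM : Splits M) (j : B₁ → B)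
    (hj : Function.Injective j) : Splits (subM M j hj) := by
  intro I hI
  obtain ⟨J, hJI, ⟨y, hy⟩, ⟨z, hz⟩, h⟩ := hM (j '' I) (by rwa [hj.encard_image])
  refine ⟨j ⁻¹' J, ?_, ?_, ?_, ?_⟩
  · intro x hx
    obtain ⟨x', hx', hxx⟩ := hJI hx
    rwa [← hj hxx]
  · obtain ⟨x, -, rfl⟩ := hJI hy
    exact ⟨x, hy⟩
  · obtain ⟨⟨x, hx, rfl⟩, h2⟩ := hz
    exact ⟨x, hx, h2⟩
  · rcases h with h | h
    · left
      intro s hs t ht
      exact h _ hs _ ⟨⟨t, ht.1, rfl⟩, ht.2⟩
    · right
      intro s hs t ht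
      exact h _ hs _ ⟨⟨t, ht.1, rfl⟩, ht.2⟩

/-- The assembly, by strong induction on `Nat.card B`.
* `Nat.card B ≤ 1`: `allL_subsingleton h2`.
* `Nat.card B = 2`: choose `e : Bool ≃ B`, `M' a b = M (e a) (e b)`. If `M' false true ≠ 0`, use
  `h2 M'` and `allL_of_equiv`; if it is `0`, use `allL_free` with two one-element parts.
* `3 ≤ Nat.card B`: apply `hM` to `Set.univ`, take for `j₁`, `j₂` the inclusions (`Subtype.val`)
  of `J` and its complement, use `allL_prod` or `allL_free`, `Splits.sub` and the induction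
  hypothesis (both parts have fewer elements). -/
theorem allL_join (h2 : ∀ M : CoxeterMatrix Bool, M false true ≠ 0 → AllL M)
    {B : Type} [Finite B] (M : CoxeterMatrix B) (hM : Splits M) : AllL M := by
  suffices H : ∀ n : ℕ, ∀ (B : Type) [Finite B] (M : CoxeterMatrix B), Nat.card B = n →
      Splits M → AllL M from H _ B M rfl hM
  intro n
  induction n using Nat.strong_induction_on with
  | _ n ih =>
    intro B _ M hn hM
    rcases Nat.lt_or_ge n 2 with h1 | h1
    · have : Subsingleton B := Finite.card_le_one_iff_subsingleton.mp (by omega)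
      exact allL_subsingleton h2 M
    · rcases Nat.eq_or_lt_of_le h1 with h3 | h3
      · have e : Bool ≃ B := finTwoEquiv.symm.trans
          (Finite.equivFinOfCardEq (hn.trans h3.symm)).symm
        by_cases h0 : M (e false) (e true) = 0
        · refine allL_free M (fun _ : Unit => e false) (fun _ : Unit => e true)
            (fun _ _ _ => rfl) (fun _ _ _ => rfl) ?_ ?_ (fun _ _ => h0)
            (allL_subsingleton h2 _) (allL_subsingleton h2 _)
          · intro b
            rcases hb : e.symm b with _ | _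
            · exact Or.inl ⟨(), by rw [← hb, Equiv.apply_symm_apply]⟩
            · exact Or.inr ⟨(), by rw [← hb, Equiv.apply_symm_apply]⟩
          · intro _ _ h
            exact absurd (e.injective h) (by simp)
        · exact allL_of_equiv (M := subM M e e.injective) e (fun _ _ => rfl) (h2 _ h0)
      · obtain ⟨J, -, ⟨y, hy⟩, ⟨z, hz⟩, h⟩ := hM Set.univ (by
          rw [Set.encard_univ, ENat.card_eq_coe_natCard, hn]
          exact_mod_cast h3)
        have hz2 : z ∉ J := hz.2
        have c1 : Nat.card J < n := by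
          rw [← hn]
          exact Finite.card_subtype_lt hz2
        have c2 : Nat.card (Jᶜ : Set B) < n := by
          rw [← hn]
          exact Finite.card_subtype_lt (x := y) (p := fun b => b ∈ Jᶜ) (fun h' => h' hy)
        have a1 : AllL (subM M (Subtype.val : J → B) Subtype.val_injective) :=
          ih _ c1 _ _ rfl (hM.sub _ _)
        have a2 : AllL (subM M (Subtype.val : (Jᶜ : Set B) → B) Subtype.val_injective) :=
          ih _ c2 _ _ rfl (hM.sub _ _)
        have hcov : ∀ b, (∃ a : J, b = a.val) ∨ ∃ a : (Jᶜ : Set B), b = a.val := by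
          intro b
          by_cases hb : b ∈ J
          · exact Or.inl ⟨⟨b, hb⟩, rfl⟩
          · exact Or.inr ⟨⟨b, hb⟩, rfl⟩
        have hdis : ∀ (a : J) (b : (Jᶜ : Set B)), a.val ≠ b.val := by
          intro a b hab
          exact b.2 (hab ▸ a.2)
        rcases h with h | h
        · exact allL_prod M _ _ Subtype.val_injective Subtype.val_injective hcov hdis
            (fun a b => h _ a.2 _ ⟨Set.mem_univ _, b.2⟩) a1 a2
        · exact allL_free M _ _ Subtype.val_injective Subtype.val_injective hcov hdis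
            (fun a b => h _ a.2 _ ⟨Set.mem_univ _, b.2⟩) a1 a2

end Pool.Agent.Helper35.KL
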