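import Pool.Agent.Helper35.KL.As.Defs

/-!
# Groups of rank at most one, from the case of rank two
-/

namespace Pool.Agent.Helper35.KL

/-- The Coxeter matrix of `A₁ × A₁`. -/
def r1M : CoxeterMatrix Bool where
  M := Matrix.of fun a b => if a = b then 1 else 2
  isSymm := by
    refine Matrix.IsSymm.ext ?_
    intro a b
    by_cases h : a = b
    · simp [h]
    · have h' : ¬ b = a := fun e => h e.symm
      simp [h, h']
  diagonal := by
    intro a
    simp
  off_diagonal := by
    intro a b hne
    simp [hne]

theorem r1M_self (a : Bool) : r1M a a = 1 := by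
  change (if a = a then 1 else 2) = 1
  simp

theorem r1M_ne : r1M false true ≠ 0 := by
  change (if false = true then 1 else 2) ≠ 0
  simp

section

variable {B : Type} [Subsingleton B] (M : CoxeterMatrix B)

theorem r1_cases (x : M.Group) : x = 1 ∨ ∃ b, x = sm M b := by
  induction x using len_induction with
  | h1 => exact Or.inl rfl
  | hs b w hl ih =>
    rcases ih with rfl | ⟨b', rfl⟩
    · exact Or.inr ⟨b, mul_one _⟩
    · left
      rw [Subsingleton.elim b' b, sm_sm]

theorem r1_entry (a b : B) : r1M ((fun _ : B => false) a) ((fun _ : B => false) b) = M a b := by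
  rw [Subsingleton.elim b a, r1M_self, M.diagonal]

/-- The embedding in the group of rank two. -/
noncomputable def r1f : M.Group →* r1M.Group := gmap (fun _ : B => false) (r1_entry M)

theorem r1f_par : IsPar (r1f M) (fun _ : B => false) where
  sm b := gmap_sm _ _ b
  len x := by
    rcases r1_cases M x with rfl | ⟨b, rfl⟩
    · rw [map_one, len_one, len_one]
    · rw [r1f, gmap_sm, len_sm, len_sm]

end

/-- P1-P15 for groups of rank at most one, assuming the dihedral case.

Proof. Let `B` be a subsingleton and `L` a weight function of `M`. If `B` is empty, `M.Group` is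
trivial. Take `M2 : CoxeterMatrix Bool` with `M2 false true = 2`. The map `M.Group → M2.Group`,
`f = gmap` of `fun _ => false` (or of `fun b => false`, with `M2 false false = 1 = M a b` since
`a = b`), satisfies `IsPar f (fun _ => false)`: the lengths agree (the group is `{1}` or `{1, s}`;
use `len_induction`, or `len_map_le`-style arguments and a retraction; see Sub.lean for `IsPar`).
Let `c = L (sm M b)` if `B` has an element `b`, and `c = 1` otherwise; then `L w = c * len M w`
for all `w` (by `len_induction`), and `L2 w = c * len M2 w` is a weight function of `M2` with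
`L2 (f w) = L w`. So `lusztig_par` (Pr.lean) gives `Lusztig M (fun x => L2 (f x))`, which is
`Lusztig M L`. (A direct proof, computing with `C_s * C_s = (q^c + q^-c) C_s`, is also fine, and
then the hypothesis `h2` is not needed; `KLD.Core.lus`, `exists_KLD` etc. are available.) -/
theorem allL_subsingleton (h2 : ∀ M : CoxeterMatrix Bool, M false true ≠ 0 → AllL M)
    {B : Type} [Subsingleton B] (M : CoxeterMatrix B) : AllL M := by
  intro L hL
  obtain ⟨c, hc, hcb⟩ : ∃ c : ℤ, 0 < c ∧ ∀ b, L (sm M b) = c := by
    rcases isEmpty_or_nonempty B with h | ⟨⟨b⟩⟩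
    · exact ⟨1, one_pos, fun b => (h.false b).elim⟩
    · exact ⟨L (sm M b), hL.pos b, fun b' => by rw [Subsingleton.elim b' b]⟩
  have hL2 : IsWeight r1M fun w => c * (len r1M w : ℤ) := by
    constructor
    · intro w w' h
      rw [h]
      push_cast
      ring
    · intro b
      rw [len_sm]
      simpa using hc
  have h := lusztig_par (r1f_par M) hL2 (h2 r1M r1M_ne _ hL2)
  have e : (fun x => c * (len r1M (r1f M x) : ℤ)) = L := by
    funext x
    rw [(r1f_par M).len]
    rcases r1_cases M x with rfl | ⟨b, rfl⟩
    · have h1 := hL.add 1 1 (by rw [mul_one, len_one])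
      rw [mul_one] at h1
      rw [len_one]
      push_cast
      linarith
    · rw [len_sm, hcb]
      simp
  rwa [e] at h

end Pool.Agent.Helper35.KL
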